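import Pool.Agent.helper12.DD.Spec2

/-!
# Module dw:SQC (helper28): stabilisers, `N_W(C)` contained in `K`
-/

set_option autoImplicit false

open Pool.Agent.helper49.Blk

namespace Pool.Agent.DD

section
variable {q m : ℕ} {K W E : Type} [Group K] [Group W] [Group E] {κ : K →* W} {ω : W →* E}
  {V₀ : Subgroup E}

theorem SQC_range (hT : Tower q m κ ω V₀) {e : E} {x y : W} (h : ω y = e * ω x * e⁻¹)
    (hx : x ∈ κ.range) : y ∈ κ.range := by
  obtain ⟨x₀, rfl⟩ := hx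
  obtain ⟨y₀, hy₀⟩ := hT.ωκnor.conj_mem (ω (κ x₀)) ⟨x₀, rfl⟩ e
  refine ⟨y₀, hT.ωinj ?_⟩
  rw [h]
  exact hy₀

theorem SQC_inv {e : E} {x y : W} (h : ω y = e * ω x * e⁻¹) : ω x = e⁻¹ * ω y * e⁻¹⁻¹ := by
  rw [h]
  group

theorem SQC_mem (hκ : Function.Injective κ) {P : Subgroup K} {x : K} :
    κ x ∈ P.map κ ↔ x ∈ P := by
  constructor
  · rintro ⟨x', hx', h⟩
    rwa [← hκ h]
  · intro h
    exact ⟨x, h, rfl⟩

theorem SQC_fix (hT : Tower q m κ ω V₀) (C : List (Subgroup K)) (hN : NC (cW κ C) ≤ κ.range)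
    (φ : NC (cW κ C) → ℂ) (e : E) :
    Fixes ω {P | P ∈ cW κ C} (NC (cW κ C)) φ e ↔
      Fixes (ω.comp κ) {P | P ∈ C} ((NC (cW κ C)).comap κ)
        (fun x => φ (κ.subgroupComap (NC (cW κ C)) x)) e := by
  constructor
  · rintro ⟨h1, h2⟩
    refine ⟨?_, ?_⟩
    · intro P hP x y hxy
      have h3 := h1 (P.map κ) (List.mem_map_of_mem hP) (κ x) (κ y) hxy
      rwa [SQC_mem hT.κinj, SQC_mem hT.κinj] at h3
    · intro x y hxy
      exact h2 (κ.subgroupComap (NC (cW κ C)) x) (κ.subgroupComap (NC (cW κ C)) y) hxy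
  · rintro ⟨h1, h2⟩
    refine ⟨?_, ?_⟩
    · intro P' hP' x y hxy
      obtain ⟨P, hP, rfl⟩ := List.mem_map.mp hP'
      constructor
      · intro hx
        obtain ⟨x₀, hx₀, rfl⟩ := hx
        obtain ⟨y₀, rfl⟩ := SQC_range hT hxy ⟨x₀, rfl⟩
        exact ⟨y₀, (h1 P hP x₀ y₀ hxy).mp hx₀, rfl⟩
      · intro hy
        obtain ⟨y₀, hy₀, rfl⟩ := hy
        obtain ⟨x₀, rfl⟩ := SQC_range hT (SQC_inv hxy) ⟨y₀, rfl⟩
        exact ⟨x₀, (h1 P hP x₀ y₀ hxy).mpr hy₀, rfl⟩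
    · rintro ⟨x, hx⟩ ⟨y, hy⟩ hxy
      obtain ⟨x₀, rfl⟩ := hN hx
      obtain ⟨y₀, rfl⟩ := hN hy
      exact h2 ⟨x₀, hx⟩ ⟨y₀, hy⟩ hxy

theorem SQC_NC (C : List (Subgroup K)) (φ : NC (cW κ C) → ℂ) (w : W)
    (h : Fixes ω {P | P ∈ cW κ C} (NC (cW κ C)) φ (ω w)) : w ∈ NC (cW κ C) := by
  simp only [NC, Subgroup.mem_iInf]
  intro P hP
  rw [Subgroup.mem_normalizer_iff]
  intro x
  refine h.1 P hP x (w * x * w⁻¹) ?_
  rw [map_mul, map_mul, map_inv]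

end

theorem SQC (hSTS : STS_stmt) (hCHQ : CHQ_stmt) : SQC_stmt := by
  intro p q m hp hq hqp hqm K W E _ _ _ _ _ κ ω V₀ hT C hN φ
  set ψ : (NC (cW κ C)).comap κ → ℂ := fun x => φ (κ.subgroupComap (NC (cW κ C)) x) with hψ
  have hfix := SQC_fix hT C hN φ
  -- an element of `W` which is in `V`
  have hW : ∀ (w : W) (g : K), Fixes (ω.comp κ) {P | P ∈ C} ((NC (cW κ C)).comap κ) ψ
      (ω w * (ω.comp κ) g) → w ∈ κ.range := by
    intro w g h
    have e1 : ω w * (ω.comp κ) g = ω (w * κ g) := by rw [map_mul]; rfl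
    rw [e1, ← hfix] at h
    have h2 := hN (SQC_NC C φ _ h)
    have h3 : w = (w * κ g) * (κ g)⁻¹ := by group
    rw [h3]
    exact mul_mem h2 (inv_mem ⟨g, rfl⟩)
  refine ⟨⟨?_, ?_⟩, ?_⟩
  · intro h
    obtain ⟨-, hC, -⟩ := hCHQ p q hp hq hqp K W κ hT.κinj hT.κnor hT.card
    obtain ⟨-, V, hV, hVr⟩ := hSTS K E (ω.comp κ) (hT.ωinj.comp hT.κinj) hT.ωκnor C
      ((NC (cW κ C)).comap κ) (hC C) ψ
    have hVV : V = V₀ := by
      refine hT.V0u V hVr ?_ ?_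
      · intro w hw
        obtain ⟨g, hg⟩ := (hV (ω w)).mp hw
        exact hW w g hg
      · intro e
        obtain ⟨w, hw⟩ := (h e).mp (Subgroup.mem_top e)
        refine ⟨e * ω w, (hV _).mpr ⟨1, ?_⟩, w⁻¹, ?_⟩
        · rw [map_one, mul_one]
          exact (hfix _).mp hw
        · rw [map_inv, mul_assoc, mul_inv_cancel, mul_one]
    rw [← hVV]
    exact hV
  · intro h e
    refine ⟨fun _ => ?_, fun _ => Subgroup.mem_top e⟩
    obtain ⟨v, hv, w, rfl⟩ := hT.V0s e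
    obtain ⟨g, hg⟩ := (h v).mp hv
    refine ⟨w⁻¹ * κ g, (hfix _).mpr ?_⟩
    have e1 : v * ω w * ω (w⁻¹ * κ g) = v * (ω.comp κ) g := by
      rw [map_mul, map_inv, mul_assoc, mul_inv_cancel_left]
      rfl
    rw [e1]
    exact hg
  · intro h
    have h1 : κ.range = ⊤ := by
      rw [eq_top_iff]
      intro w _
      obtain ⟨g, hg⟩ := (h (ω w)).mp (Subgroup.mem_top _)
      exact hW w g hg
    have h2 : Nat.card W = Nat.card K := by
      have h3 : Function.Surjective κ := MonoidHom.range_eq_top.mp h1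
      exact (Nat.card_congr (Equiv.ofBijective κ ⟨hT.κinj, h3⟩)).symm
    have h4 := hT.card
    have h5 : 0 < Nat.card K := Nat.card_pos
    have h6 := hq.two_le
    rw [h2] at h4
    nlinarith

end Pool.Agent.DD
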